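import Pool.Agent.Q298.EdgeRemoval.Defs

/-!
# Counting orders in which given edges are last in given sets
-/

namespace Q298.EdgeRemoval

open Finset

section general

variable {α : Type*} [Fintype α] [DecidableEq α] {N : ℕ}

/-- `e` comes last among the elements of `B`. -/
def Last (σ : Fin N ≃ α) (e : α) (B : Finset α) : Prop := ∀ f ∈ B, σ.symm f ≤ σ.symm e

open Classical in
lemma card_last_le (A : Finset (Fin N ≃ α)) (e : α) (B : Finset α) (he : e ∈ B)
    (hA : ∀ σ ∈ A, ∀ c ∈ B, σ.trans (Equiv.swap e c) ∈ A) :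
    (A.filter (fun σ => Last σ e B)).card * B.card ≤ A.card := by
  rw [← card_product]
  apply card_le_card_of_injOn (fun x : (Fin N ≃ α) × α => x.1.trans (Equiv.swap e x.2))
  · intro x hx
    rw [mem_coe, mem_product, mem_filter] at hx
    exact hA _ hx.1.1 _ hx.2
  · intro x hx y hy hxy
    rw [mem_coe, mem_product, mem_filter] at hx hy
    simp only at hxy
    have key : ∀ (x y : (Fin N ≃ α) × α), Last x.1 e B → y.2 ∈ B → x.2 ∈ B →
        (x.1.trans (Equiv.swap e x.2)).symm y.2 ≤ (x.1.trans (Equiv.swap e x.2)).symm x.2 := by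
      intro x y hx hy hx2
      simp only [Equiv.symm_trans_apply, Equiv.symm_swap, Equiv.swap_apply_right]
      apply hx
      by_cases h1 : y.2 = e
      · rw [h1, Equiv.swap_apply_left]; exact hx2
      · by_cases h2 : y.2 = x.2
        · rw [h2, Equiv.swap_apply_right]; exact he
        · rw [Equiv.swap_apply_of_ne_of_ne h1 h2]; exact hy
    have h1 := key x y hx.1.2 hy.2 hx.2
    have h2 := key y x hy.1.2 hx.2 hy.2
    rw [← hxy] at h2
    have h3 := (x.1.trans (Equiv.swap e x.2)).symm.injective (le_antisymm h1 h2)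
    have h4 : x.1 = y.1 := by
      rw [h3] at hxy
      ext i
      have := congrArg (fun s : Fin N ≃ α => s i) hxy
      simp only [Equiv.trans_apply] at this
      exact (Equiv.swap e x.2).injective this
    exact Prod.ext h4 h3.symm

end general

variable {n : ℕ}

/-- The edges as a type. -/
abbrev E (n : ℕ) : Type := {e : ℕ × ℕ // e ∈ complete n}

/-- `e` and the in-edges of its head with even difference -/
def R (e : E n) : Finset (E n) :=
  univ.filter (fun f => f = e ∨ (f.1.2 = e.1.2 ∧ f.1.1 % 2 = f.1.2 % 2))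

/-- `e` and the out-edges of its tail with odd difference -/
def Bl (e : E n) : Finset (E n) :=
  univ.filter (fun f => f = e ∨ (f.1.1 = e.1.1 ∧ f.1.1 % 2 ≠ f.1.2 % 2))

lemma mem_complete {e : ℕ × ℕ} : e ∈ complete n ↔ 1 ≤ e.1 ∧ e.1 < e.2 ∧ e.2 ≤ n := by
  simp only [complete, mem_filter, mem_product, mem_Icc]
  omega

lemma mem_R_self (e : E n) : e ∈ R e := by simp [R]

lemma mem_Bl_self (e : E n) : e ∈ Bl e := by simp [Bl]

lemma ne_of_mem {e e' f c : E n} (he : e'.1.2 ≤ e.1.1) (hf : f ∈ R e' ∨ f ∈ Bl e')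
    (hc : c ∈ R e ∨ c ∈ Bl e) : f ≠ c := by
  have h1 := mem_complete.1 e.2
  have h2 := mem_complete.1 e'.2
  have h3 := mem_complete.1 f.2
  rintro rfl
  simp only [R, Bl, mem_filter, mem_univ, true_and] at hf hc
  rcases hf with (rfl | hf) | (rfl | hf) <;> rcases hc with (rfl | hc) | (rfl | hc) <;> omega

/-- The surrogate event: `e` is last in `R e` or last in `Bl e`. -/
def Surr (σ : Order n) (e : E n) : Prop := Last σ e (R e) ∨ Last σ e (Bl e)

/-- There is a path of `k` surrogate edges that ends at `b` and starts at a vertex in `I`. -/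
def Reach (I : ℕ → Prop) (σ : Order n) : ℕ → ℕ → Prop
  | 0, b => I b
  | k + 1, b => ∃ a, ∃ h : (a, b) ∈ complete n, Surr σ ⟨(a, b), h⟩ ∧ Reach I σ k a

lemma last_swap {σ : Order n} {e e' c : E n} {B : Finset (E n)} (he' : e' ∈ B)
    (h1 : ∀ f ∈ B, f ≠ e) (h2 : ∀ f ∈ B, f ≠ c) (h : Last σ e' B) :
    Last (σ.trans (Equiv.swap e c)) e' B := by
  intro f hf
  simp only [Equiv.symm_trans_apply, Equiv.symm_swap]
  rw [Equiv.swap_apply_of_ne_of_ne (h1 f hf) (h2 f hf),
    Equiv.swap_apply_of_ne_of_ne (h1 e' he') (h2 e' he')]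
  exact h f hf

lemma surr_swap {σ : Order n} {e e' c : E n} (he : e'.1.2 ≤ e.1.1)
    (hc : c ∈ R e ∨ c ∈ Bl e) (h : Surr σ e') : Surr (σ.trans (Equiv.swap e c)) e' := by
  rcases h with h | h
  · left
    exact last_swap (mem_R_self _) (fun f hf => ne_of_mem he (Or.inl hf) (Or.inl (mem_R_self e)))
      (fun f hf => ne_of_mem he (Or.inl hf) hc) h
  · right
    exact last_swap (mem_Bl_self _) (fun f hf => ne_of_mem he (Or.inr hf) (Or.inl (mem_R_self e)))
      (fun f hf => ne_of_mem he (Or.inr hf) hc) h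

lemma reach_swap {I : ℕ → Prop} {σ : Order n} {e c : E n} (hc : c ∈ R e ∨ c ∈ Bl e)
    (k : ℕ) : ∀ a, a ≤ e.1.1 → Reach I σ k a → Reach I (σ.trans (Equiv.swap e c)) k a := by
  induction k with
  | zero => intro a _ h; exact h
  | succ k ih =>
    rintro b hb ⟨a, h, h1, h2⟩
    have hab := (mem_complete.1 h).2.1
    simp only at hab
    exact ⟨a, h, surr_swap hb hc h1, ih a (hab.le.trans hb) h2⟩

open Classical in
/-- the number of orders with a surrogate path of length `k` from `I` to `b` -/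
noncomputable def cnt (n : ℕ) (I : ℕ → Prop) (k b : ℕ) : ℕ :=
  (univ.filter (fun σ : Order n => Reach I σ k b)).card

lemma card_R (e : E n) : (e.1.2 : ℝ) - 1 ≤ 3 * ((R e).card : ℝ) := by
  have he := mem_complete.1 e.2
  have h0 : 1 ≤ (R e).card := card_pos.2 ⟨e, mem_R_self e⟩
  have h1 : (e.1.2 - 1) / 2 ≤ (R e).card := by
    have hm : ∀ j, j < (e.1.2 - 1) / 2 → (e.1.2 - 2 - 2 * j, e.1.2) ∈ complete n := by
      intro j hj
      rw [mem_complete]
      simp only
      omega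
    rw [← Fintype.card_fin ((e.1.2 - 1) / 2), ← card_univ]
    apply card_le_card_of_injOn
      (fun j : Fin ((e.1.2 - 1) / 2) => (⟨(e.1.2 - 2 - 2 * j.1, e.1.2), hm j.1 j.2⟩ : E n))
    · intro j _
      have hj := j.2
      simp only [R, coe_filter, mem_univ, true_and, Set.mem_ofPred_eq]
      right
      omega
    · intro j _ j' _ h
      have := congrArg (fun x : E n => x.1.1) h
      simp only at this
      have hj := j.2
      have hj' := j'.2
      apply Fin.ext
      omega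
  have h2 : e.1.2 ≤ 3 * (R e).card + 1 := by omega
  have h3 : (e.1.2 : ℝ) ≤ 3 * ((R e).card : ℝ) + 1 := by exact_mod_cast h2
  linarith

lemma card_Bl (e : E n) : (n : ℝ) - e.1.1 ≤ 3 * ((Bl e).card : ℝ) := by
  have he := mem_complete.1 e.2
  have h1 : (n - e.1.1 + 1) / 2 ≤ (Bl e).card := by
    have hm : ∀ j, j < (n - e.1.1 + 1) / 2 → (e.1.1, e.1.1 + 1 + 2 * j) ∈ complete n := by
      intro j hj
      rw [mem_complete]
      simp only
      omega
    rw [← Fintype.card_fin ((n - e.1.1 + 1) / 2), ← card_univ]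
    apply card_le_card_of_injOn
      (fun j : Fin ((n - e.1.1 + 1) / 2) => (⟨(e.1.1, e.1.1 + 1 + 2 * j.1), hm j.1 j.2⟩ : E n))
    · intro j _
      have hj := j.2
      simp only [Bl, coe_filter, mem_univ, true_and, Set.mem_ofPred_eq]
      right
      omega
    · intro j _ j' _ h
      have := congrArg (fun x : E n => x.1.2) h
      simp only at this
      apply Fin.ext
      omega
  have h2 : n ≤ 3 * (Bl e).card + e.1.1 := by omega
  have h3 : (n : ℝ) ≤ 3 * ((Bl e).card : ℝ) + e.1.1 := by exact_mod_cast h2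
  linarith

open Classical in
lemma card_reach_last (I : ℕ → Prop) (k : ℕ) (e : E n) (B : Finset (E n))
    (hB : B = R e ∨ B = Bl e) :
    (univ.filter (fun σ : Order n => Reach I σ k e.1.1 ∧ Last σ e B)).card * B.card ≤
      cnt n I k e.1.1 := by
  unfold cnt
  rw [← filter_filter]
  apply card_last_le
  · rcases hB with rfl | rfl
    · exact mem_R_self e
    · exact mem_Bl_self e
  · intro σ hσ c hc
    rw [mem_filter] at hσ ⊢
    refine ⟨mem_univ _, reach_swap ?_ k _ le_rfl hσ.2⟩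
    rcases hB with rfl | rfl
    · left; exact hc
    · right; exact hc

open Classical in
lemma cnt_edge (I : ℕ → Prop) (k : ℕ) (e : E n) :
    ((univ.filter (fun σ : Order n => Surr σ e ∧ Reach I σ k e.1.1)).card : ℝ) ≤
      3 * (1 / ((e.1.2 : ℝ) - 1) + 1 / ((n : ℝ) - e.1.1)) * (cnt n I k e.1.1 : ℝ) := by
  have he := mem_complete.1 e.2
  have e1 : (1 : ℝ) ≤ e.1.1 := by exact_mod_cast he.1
  have e2 : (e.1.1 : ℝ) + 1 ≤ e.1.2 := by exact_mod_cast he.2.1
  have e3 : (e.1.2 : ℝ) ≤ n := by exact_mod_cast he.2.2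
  have h1 := card_reach_last I k e (R e) (Or.inl rfl)
  have h2 := card_reach_last I k e (Bl e) (Or.inr rfl)
  set X := univ.filter (fun σ : Order n => Reach I σ k e.1.1 ∧ Last σ e (R e)) with hX
  set Y := univ.filter (fun σ : Order n => Reach I σ k e.1.1 ∧ Last σ e (Bl e)) with hY
  have h1' : (X.card : ℝ) * ((R e).card : ℝ) ≤ (cnt n I k e.1.1 : ℝ) := by exact_mod_cast h1
  have h2' : (Y.card : ℝ) * ((Bl e).card : ℝ) ≤ (cnt n I k e.1.1 : ℝ) := by exact_mod_cast h2
  have hsub : univ.filter (fun σ : Order n => Surr σ e ∧ Reach I σ k e.1.1) ⊆ X ∪ Y := by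
    intro σ hσ
    rw [mem_filter] at hσ
    rw [mem_union, hX, hY, mem_filter, mem_filter]
    rcases hσ.2.1 with h | h
    · left; exact ⟨mem_univ _, hσ.2.2, h⟩
    · right; exact ⟨mem_univ _, hσ.2.2, h⟩
  have h3 : ((univ.filter (fun σ : Order n => Surr σ e ∧ Reach I σ k e.1.1)).card : ℝ) ≤
      X.card + Y.card := by
    exact_mod_cast (card_le_card hsub).trans (card_union_le _ _)
  have hx0 : (0 : ℝ) ≤ X.card := Nat.cast_nonneg _
  have hy0 : (0 : ℝ) ≤ Y.card := Nat.cast_nonneg _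
  have hR := card_R e
  have hBl := card_Bl e
  have hX' : (X.card : ℝ) ≤ 3 * (1 / ((e.1.2 : ℝ) - 1)) * (cnt n I k e.1.1 : ℝ) := by
    have hp : (0 : ℝ) < (e.1.2 : ℝ) - 1 := by linarith
    have : (X.card : ℝ) * ((e.1.2 : ℝ) - 1) ≤ 3 * (cnt n I k e.1.1 : ℝ) := by
      calc (X.card : ℝ) * ((e.1.2 : ℝ) - 1) ≤ X.card * (3 * ((R e).card : ℝ)) :=
            mul_le_mul_of_nonneg_left hR hx0
        _ = 3 * ((X.card : ℝ) * ((R e).card : ℝ)) := by ring
        _ ≤ _ := by linarith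
    calc (X.card : ℝ) = ((X.card : ℝ) * ((e.1.2 : ℝ) - 1)) / ((e.1.2 : ℝ) - 1) := by
          field_simp
      _ ≤ (3 * (cnt n I k e.1.1 : ℝ)) / ((e.1.2 : ℝ) - 1) := by
          apply div_le_div_of_nonneg_right this hp.le
      _ = _ := by ring
  have hY' : (Y.card : ℝ) ≤ 3 * (1 / ((n : ℝ) - e.1.1)) * (cnt n I k e.1.1 : ℝ) := by
    have hp : (0 : ℝ) < (n : ℝ) - e.1.1 := by linarith
    have : (Y.card : ℝ) * ((n : ℝ) - e.1.1) ≤ 3 * (cnt n I k e.1.1 : ℝ) := by
      calc (Y.card : ℝ) * ((n : ℝ) - e.1.1) ≤ Y.card * (3 * ((Bl e).card : ℝ)) :=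
            mul_le_mul_of_nonneg_left hBl hy0
        _ = 3 * ((Y.card : ℝ) * ((Bl e).card : ℝ)) := by ring
        _ ≤ _ := by linarith
    calc (Y.card : ℝ) = ((Y.card : ℝ) * ((n : ℝ) - e.1.1)) / ((n : ℝ) - e.1.1) := by
          field_simp
      _ ≤ (3 * (cnt n I k e.1.1 : ℝ)) / ((n : ℝ) - e.1.1) := by
          apply div_le_div_of_nonneg_right this hp.le
      _ = _ := by ring
  calc _ ≤ (X.card : ℝ) + Y.card := h3
    _ ≤ _ := by rw [mul_add, add_mul]; exact add_le_add hX' hY'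

open Classical in
lemma cnt_succ (I : ℕ → Prop) (k b : ℕ) (hb : b ≤ n) :
    (cnt n I (k + 1) b : ℝ) ≤ ∑ a ∈ Ico 1 b,
      3 * (1 / ((b : ℝ) - 1) + 1 / ((n : ℝ) - a)) * (cnt n I k a : ℝ) := by
  have hmem : ∀ a ∈ Ico 1 b, (a, b) ∈ complete n := by
    intro a ha
    rw [mem_Ico] at ha
    rw [mem_complete]
    exact ⟨ha.1, ha.2, hb⟩
  have hsub : univ.filter (fun σ : Order n => Reach I σ (k + 1) b) ⊆
      (Ico 1 b).biUnion (fun a => univ.filter (fun σ : Order n =>
        (∃ h : (a, b) ∈ complete n, Surr σ ⟨(a, b), h⟩) ∧ Reach I σ k a)) := by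
    intro σ hσ
    rw [mem_filter] at hσ
    obtain ⟨a, h, h1, h2⟩ := hσ.2
    have hh := mem_complete.1 h
    rw [mem_biUnion]
    refine ⟨a, mem_Ico.2 ⟨hh.1, hh.2.1⟩, ?_⟩
    rw [mem_filter]
    exact ⟨mem_univ _, ⟨h, h1⟩, h2⟩
  have h1 : (cnt n I (k + 1) b : ℝ) ≤ ∑ a ∈ Ico 1 b, ((univ.filter (fun σ : Order n =>
        (∃ h : (a, b) ∈ complete n, Surr σ ⟨(a, b), h⟩) ∧ Reach I σ k a)).card : ℝ) := by
    exact_mod_cast (card_le_card hsub).trans card_biUnion_le
  refine h1.trans (sum_le_sum ?_)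
  intro a ha
  have h2 := cnt_edge I k (⟨(a, b), hmem a ha⟩ : E n)
  simp only at h2
  refine le_trans ?_ h2
  have : (univ.filter (fun σ : Order n =>
        (∃ h : (a, b) ∈ complete n, Surr σ ⟨(a, b), h⟩) ∧ Reach I σ k a)) ⊆
      univ.filter (fun σ : Order n => Surr σ (⟨(a, b), hmem a ha⟩ : E n) ∧ Reach I σ k a) := by
    intro σ hσ
    rw [mem_filter] at hσ ⊢
    obtain ⟨_, ⟨h, h3⟩, h4⟩ := hσ
    exact ⟨mem_univ _, h3, h4⟩
  exact_mod_cast card_le_card this

end Q298.EdgeRemoval
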