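import Mathlib

/-!
# The (1,1) edge-removal process: definitions
-/

namespace Q298.EdgeRemoval

open Finset

/-- Edges of the complete task-dependency graph on the vertices `1, ..., n`. -/
def complete (n : ℕ) : Finset (ℕ × ℕ) :=
  (Icc 1 n ×ˢ Icc 1 n).filter (fun e => e.1 < e.2)

open Classical in
/-- Initial vertices (in-degree zero) of the graph with edge set `G` on `1, ..., n`. -/
noncomputable def initials (n : ℕ) (G : Finset (ℕ × ℕ)) : Finset ℕ :=
  (Icc 1 n).filter (fun v => ∀ u ∈ Icc 1 n, (u, v) ∉ G)

open Classical in
/-- Terminal vertices (out-degree zero) of the graph with edge set `G` on `1, ..., n`. -/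
noncomputable def terminals (n : ℕ) (G : Finset (ℕ × ℕ)) : Finset ℕ :=
  (Icc 1 n).filter (fun v => ∀ w ∈ Icc 1 n, (v, w) ∉ G)

/-- An order in which the edges are examined: `σ i` is the edge examined at time `i`. -/
abbrev Order (n : ℕ) : Type := Fin (complete n).card ≃ {e : ℕ × ℕ // e ∈ complete n}

/-- Examine the edge `e`: it is deleted unless this would leave more than one initial vertex or
more than one terminal vertex. -/
noncomputable def step (n : ℕ) (G : Finset (ℕ × ℕ)) (e : ℕ × ℕ) : Finset (ℕ × ℕ) :=
  if 1 < (initials n (G.erase e)).card ∨ 1 < (terminals n (G.erase e)).card then G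
  else G.erase e

/-- The graph after the first `t` edges of the order `σ` have been examined. -/
noncomputable def state (n : ℕ) (σ : Order n) : ℕ → Finset (ℕ × ℕ)
  | 0 => complete n
  | t + 1 => if h : t < (complete n).card then step n (state n σ t) (σ ⟨t, h⟩)
      else state n σ t

/-- The output `G_n` of the process for the order `σ`. -/
noncomputable def output (n : ℕ) (σ : Order n) : Finset (ℕ × ℕ) := state n σ (complete n).card

/-- The maximum directed path length of a graph: the largest number of edges in a directed path. -/
noncomputable def maxPath (G : Finset (ℕ × ℕ)) : ℕ :=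
  sSup {k : ℕ | ∃ p : ℕ → ℕ, ∀ i < k, (p i, p (i + 1)) ∈ G}

/-- `E[L_n]`: the average of the maximum directed path length of the output over all orders. -/
noncomputable def expLen (n : ℕ) : ℝ :=
  (∑ σ : Order n, (maxPath (output n σ) : ℝ)) / (Fintype.card (Order n) : ℝ)

end Q298.EdgeRemoval
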