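import Pool.Agent.Q298.EdgeRemoval.Count

/-!
# Structure of the output of the process
-/

namespace Q298.EdgeRemoval

open Finset

variable {n : ℕ}

lemma step_sub (G : Finset (ℕ × ℕ)) (e : ℕ × ℕ) : step n G e ⊆ G := by
  unfold step
  split_ifs
  · exact subset_rfl
  · exact erase_subset _ _

lemma erase_sub_step (G : Finset (ℕ × ℕ)) (e : ℕ × ℕ) : G.erase e ⊆ step n G e := by
  unfold step
  split_ifs
  · exact erase_subset _ _
  · exact subset_rfl

lemma state_succ_sub (σ : Order n) (t : ℕ) : state n σ (t + 1) ⊆ state n σ t := by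
  rw [state]
  split_ifs
  · exact step_sub _ _
  · exact subset_rfl

lemma state_anti (σ : Order n) {s t : ℕ} (h : s ≤ t) : state n σ t ⊆ state n σ s := by
  induction t, h using Nat.le_induction with
  | base => exact subset_rfl
  | succ t _ ih => exact (state_succ_sub σ t).trans ih

lemma state_sub (σ : Order n) (t : ℕ) : state n σ t ⊆ complete n := by
  have := state_anti σ (Nat.zero_le t)
  exact this

lemma mem_initials {G : Finset (ℕ × ℕ)} {v : ℕ} :
    v ∈ initials n G ↔ (1 ≤ v ∧ v ≤ n) ∧ ∀ u ∈ Icc 1 n, (u, v) ∉ G := by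
  simp [initials]

lemma mem_terminals {G : Finset (ℕ × ℕ)} {v : ℕ} :
    v ∈ terminals n G ↔ (1 ≤ v ∧ v ≤ n) ∧ ∀ u ∈ Icc 1 n, (v, u) ∉ G := by
  simp [terminals]

lemma one_mem_initials (hn : 1 ≤ n) {G : Finset (ℕ × ℕ)} (hG : G ⊆ complete n) :
    1 ∈ initials n G := by
  rw [mem_initials]
  refine ⟨⟨le_rfl, hn⟩, fun u _ h => ?_⟩
  have := mem_complete.1 (hG h)
  simp only at this
  omega

lemma last_mem_terminals (hn : 1 ≤ n) {G : Finset (ℕ × ℕ)} (hG : G ⊆ complete n) :
    n ∈ terminals n G := by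
  rw [mem_terminals]
  refine ⟨⟨hn, le_rfl⟩, fun u _ h => ?_⟩
  have := mem_complete.1 (hG h)
  simp only at this
  omega

lemma inv (hn : 1 ≤ n) (σ : Order n) (t : ℕ) :
    (initials n (state n σ t)).card ≤ 1 ∧ (terminals n (state n σ t)).card ≤ 1 := by
  induction t with
  | zero =>
    rw [state, card_le_one, card_le_one]
    constructor
    · intro a ha b hb
      rw [mem_initials] at ha hb
      have h1 : ∀ a, ((1 ≤ a ∧ a ≤ n) ∧ ∀ u ∈ Icc 1 n, (u, a) ∉ complete n) → a = 1 := by
        rintro a ⟨⟨h1, h2⟩, h3⟩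
        by_contra h
        apply h3 1 (mem_Icc.2 ⟨le_rfl, hn⟩)
        rw [mem_complete]
        simp only
        omega
      rw [h1 a ha, h1 b hb]
    · intro a ha b hb
      rw [mem_terminals] at ha hb
      have h1 : ∀ a, ((1 ≤ a ∧ a ≤ n) ∧ ∀ u ∈ Icc 1 n, (a, u) ∉ complete n) → a = n := by
        rintro a ⟨⟨h1, h2⟩, h3⟩
        by_contra h
        apply h3 n (mem_Icc.2 ⟨hn, le_rfl⟩)
        rw [mem_complete]
        simp only
        omega
      rw [h1 a ha, h1 b hb]
  | succ t ih =>
    rw [state]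
    split_ifs with h
    · unfold step
      split_ifs with h2
      · exact ih
      · push Not at h2
        exact h2
    · exact ih

lemma exists_in (hn : 1 ≤ n) (σ : Order n) (t : ℕ) {v : ℕ} (hv : 2 ≤ v) (hvn : v ≤ n) :
    ∃ u, (u, v) ∈ state n σ t := by
  by_contra h
  push Not at h
  have h1 := one_mem_initials hn (state_sub σ t)
  have h2 : v ∈ initials n (state n σ t) := mem_initials.2 ⟨⟨by omega, hvn⟩, fun u _ => h u⟩
  have := card_le_one.1 (inv hn σ t).1 _ h1 _ h2
  omega

lemma exists_out (hn : 1 ≤ n) (σ : Order n) (t : ℕ) {v : ℕ} (hv : 1 ≤ v) (hvn : v < n) :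
    ∃ u, (v, u) ∈ state n σ t := by
  by_contra h
  push Not at h
  have h1 := last_mem_terminals hn (state_sub σ t)
  have h2 : v ∈ terminals n (state n σ t) := mem_terminals.2 ⟨⟨hv, hvn.le⟩, fun u _ => h u⟩
  have := card_le_one.1 (inv hn σ t).2 _ h1 _ h2
  omega

lemma unexamined (σ : Order n) (e : E n) (t : ℕ) (ht : t ≤ (σ.symm e).1) :
    e.1 ∈ state n σ t := by
  induction t with
  | zero => exact e.2
  | succ t ih =>
    have h1 := ih (by omega)
    have h2 : t < (complete n).card := by have := (σ.symm e).2; omega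
    rw [state, dif_pos h2]
    apply erase_sub_step
    rw [mem_erase]
    refine ⟨?_, h1⟩
    intro h
    have h3 : e = σ ⟨t, h2⟩ := Subtype.ext h
    have h4 : σ.symm e = ⟨t, h2⟩ := by rw [h3, Equiv.symm_apply_apply]
    rw [h4] at ht
    simp only at ht
    omega

lemma kept (hn : 1 ≤ n) (σ : Order n) (e : E n) (he : e.1 ∈ output n σ) :
    (∀ f : E n, f.1.2 = e.1.2 → σ.symm f ≤ σ.symm e) ∨
      (∀ f : E n, f.1.1 = e.1.1 → σ.symm f ≤ σ.symm e) := by
  have hs := (σ.symm e).2
  have h1 : e.1 ∈ state n σ ((σ.symm e).1 + 1) := state_anti σ (by omega) he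
  rw [state, dif_pos hs] at h1
  have h2 : (σ ⟨(σ.symm e).1, hs⟩ : E n) = e := by simp
  rw [h2] at h1
  unfold step at h1
  split_ifs at h1 with hc
  · rcases hc with hc | hc
    · left
      obtain ⟨v, hv, hv1⟩ := exists_mem_ne hc 1
      rw [mem_initials] at hv
      obtain ⟨u, hu⟩ := exists_in hn σ (σ.symm e).1 (v := v) (by omega) hv.1.2
      have hu' := mem_complete.1 (state_sub σ _ hu)
      simp only at hu'
      have hue : (u, v) = e.1 := by
        by_contra hne
        exact hv.2 u (mem_Icc.2 (by omega)) (mem_erase.2 ⟨hne, hu⟩)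
      intro f hf
      by_contra hlt
      push Not at hlt
      have h3 := unexamined σ f (σ.symm e).1 (le_of_lt hlt)
      have hfv : f.1.2 = v := by rw [hf, ← hue]
      have hf' := mem_complete.1 f.2
      have hf1 : f.1 = (f.1.1, v) := by rw [← hfv]
      apply hv.2 f.1.1 (mem_Icc.2 (by omega))
      rw [← hf1, mem_erase]
      refine ⟨?_, h3⟩
      intro h
      have : f = e := Subtype.ext h
      rw [this] at hlt
      exact lt_irrefl _ hlt
    · right
      obtain ⟨v, hv, hv1⟩ := exists_mem_ne hc n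
      rw [mem_terminals] at hv
      obtain ⟨u, hu⟩ := exists_out hn σ (σ.symm e).1 (v := v) hv.1.1 (by omega)
      have hu' := mem_complete.1 (state_sub σ _ hu)
      simp only at hu'
      have hue : (v, u) = e.1 := by
        by_contra hne
        exact hv.2 u (mem_Icc.2 (by omega)) (mem_erase.2 ⟨hne, hu⟩)
      intro f hf
      by_contra hlt
      push Not at hlt
      have h3 := unexamined σ f (σ.symm e).1 (le_of_lt hlt)
      have hfv : f.1.1 = v := by rw [hf, ← hue]
      have hf' := mem_complete.1 f.2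
      have hf1 : f.1 = (v, f.1.2) := by rw [← hfv]
      apply hv.2 f.1.2 (mem_Icc.2 (by omega))
      rw [← hf1, mem_erase]
      refine ⟨?_, h3⟩
      intro h
      have : f = e := Subtype.ext h
      rw [this] at hlt
      exact lt_irrefl _ hlt
  · exact absurd h1 (notMem_erase _ _)

lemma surr_of_mem (hn : 1 ≤ n) (σ : Order n) (e : E n) (he : e.1 ∈ output n σ) : Surr σ e := by
  rcases kept hn σ e he with h | h
  · left
    intro f hf
    apply h
    simp only [R, mem_filter, mem_univ, true_and] at hf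
    rcases hf with rfl | hf
    · rfl
    · exact hf.1
  · right
    intro f hf
    apply h
    simp only [Bl, mem_filter, mem_univ, true_and] at hf
    rcases hf with rfl | hf
    · rfl
    · exact hf.1

lemma path_bound (σ : Order n) {k : ℕ} {p : ℕ → ℕ}
    (hp : ∀ i < k, (p i, p (i + 1)) ∈ output n σ) : k ≤ n := by
  have hmem : ∀ i < k, 1 ≤ p i ∧ p i < p (i + 1) ∧ p (i + 1) ≤ n := by
    intro i hi
    have := mem_complete.1 (state_sub σ _ (hp i hi))
    simpa using this
  have h : ∀ i ≤ k, i ≤ p i := by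
    intro i
    induction i with
    | zero => intro _; omega
    | succ i ih =>
      intro hi
      have h1 := ih (by omega)
      have h2 := hmem i (by omega)
      omega
  rcases Nat.eq_zero_or_pos k with h0 | h0
  · omega
  · have h1 := hmem (k - 1) (by omega)
    have h2 := h k le_rfl
    rw [Nat.sub_add_cancel h0] at h1
    omega

lemma bdd (σ : Order n) :
    BddAbove {k : ℕ | ∃ p : ℕ → ℕ, ∀ i < k, (p i, p (i + 1)) ∈ output n σ} :=
  ⟨n, fun _ ⟨_, hp⟩ => path_bound σ hp⟩

lemma maxPath_le (σ : Order n) : maxPath (output n σ) ≤ n := by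
  apply csSup_le
  · exact ⟨0, fun _ => 0, fun i hi => absurd hi (Nat.not_lt_zero i)⟩
  · rintro k ⟨p, hp⟩
    exact path_bound σ hp

lemma reach_of_le (hn : 1 ≤ n) (σ : Order n) {k : ℕ} (hk : 1 ≤ k)
    (h : k ≤ maxPath (output n σ)) :
    ∃ b, 1 ≤ b ∧ b ≤ n ∧ Reach (fun _ => True) σ k b := by
  have hmem := Nat.sSup_mem (s := {k : ℕ | ∃ p : ℕ → ℕ, ∀ i < k, (p i, p (i + 1)) ∈ output n σ})
    ⟨0, fun _ => 0, fun i hi => absurd hi (Nat.not_lt_zero i)⟩ (bdd σ)
  obtain ⟨p, hp⟩ := hmem
  have hp' : ∀ i < k, (p i, p (i + 1)) ∈ output n σ := fun i hi => hp i (lt_of_lt_of_le hi h)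
  have hr : ∀ i ≤ k, Reach (fun _ => True) σ i (p i) := by
    intro i
    induction i with
    | zero => intro _; trivial
    | succ i ih =>
      intro hi
      have h1 := ih (by omega)
      have h2 := hp' i (by omega)
      exact ⟨p i, state_sub σ _ h2, surr_of_mem hn σ ⟨_, state_sub σ _ h2⟩ h2, h1⟩
  have h3 := mem_complete.1 (state_sub σ _ (hp' (k - 1) (by omega)))
  rw [Nat.sub_add_cancel hk] at h3
  exact ⟨p k, by simp only at h3; omega, h3.2.2, hr k le_rfl⟩

lemma reach_root (hn : 1 ≤ n) (σ : Order n) (v : ℕ) (hv : 1 ≤ v) (hvn : v ≤ n) :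
    ∃ k ≤ maxPath (output n σ), Reach (fun b => b = 1) σ k v := by
  have main : ∀ v, 1 ≤ v → v ≤ n → ∃ k, ∃ p : ℕ → ℕ, p k = v ∧
      (∀ i < k, (p i, p (i + 1)) ∈ output n σ) ∧ Reach (fun b => b = 1) σ k v := by
    intro v
    induction v using Nat.strong_induction_on with
    | _ v ih =>
      intro hv hvn
      rcases eq_or_lt_of_le hv with h1 | h1
      · refine ⟨0, fun _ => v, rfl, fun i hi => absurd hi (Nat.not_lt_zero i), ?_⟩
        show v = 1
        exact h1.symm
      · obtain ⟨u, hu⟩ := exists_in hn σ (complete n).card (v := v) (by omega) hvn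
        have hu1 := mem_complete.1 (state_sub σ _ hu)
        simp only at hu1
        obtain ⟨k, p, hpk, hp, hr⟩ := ih u hu1.2.1 hu1.1 (by omega)
        refine ⟨k + 1, fun i => if i ≤ k then p i else v, by simp, ?_, ?_⟩
        · intro i hi
          simp only
          rw [if_pos (by omega)]
          by_cases h : i + 1 ≤ k
          · rw [if_pos h]; exact hp i (by omega)
          · rw [if_neg h]
            have : i = k := by omega
            rw [this, hpk]
            exact hu
        · exact ⟨u, state_sub σ _ hu, surr_of_mem hn σ ⟨_, state_sub σ _ hu⟩ hu, hr⟩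
  obtain ⟨k, p, _, hp, hr⟩ := main v hv hvn
  exact ⟨k, le_csSup (bdd σ) ⟨p, hp⟩, hr⟩

end Q298.EdgeRemoval
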