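import Pool.Agent.Q298.EdgeRemoval.Process

/-!
# The two bounds for the expected maximum path length
-/

namespace Q298.EdgeRemoval

open Finset Filter

/-- rising factorial -/
noncomputable def P (m : ℕ) (x : ℝ) : ℝ := ∏ i ∈ range m, (x + i)

lemma P_pos (m : ℕ) {x : ℝ} (hx : 0 < x) : 0 < P m x := by
  apply prod_pos
  intro i _
  positivity

lemma P_mono (m : ℕ) {x y : ℝ} (hx : 0 < x) (hxy : x ≤ y) : P m x ≤ P m y := by
  apply Finset.prod_le_prod
  · intro i _; positivity
  · intro i _; linarith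

lemma P_shift (m : ℕ) (x : ℝ) : x * P m (x + 1) = P m x * (x + m) := by
  have h1 : ∏ i ∈ range (m + 1), (x + (i : ℝ)) = P m x * (x + m) := by
    rw [prod_range_succ]; rfl
  have h2 : ∏ i ∈ range (m + 1), (x + (i : ℝ)) = P m (x + 1) * x := by
    rw [prod_range_succ']
    unfold P
    congr 1
    · apply prod_congr rfl
      intro i _
      push_cast
      ring
    · simp
  rw [← h1, h2]; ring

lemma P_le_pow (m : ℕ) {x : ℝ} (hx : 1 ≤ x) : P m x ≤ x ^ m * P m 1 := by
  have e : x ^ m * P m 1 = ∏ i ∈ range m, (x * (1 + (i : ℝ))) := by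
    rw [prod_mul_distrib, prod_const, card_range]
    rfl
  rw [e]
  unfold P
  apply Finset.prod_le_prod
  · intro i _; positivity
  · intro i _
    have : (0 : ℝ) ≤ i := Nat.cast_nonneg i
    nlinarith

lemma sum_g (m b : ℕ) (hb : 1 ≤ b) :
    ∑ a ∈ Ico 1 b, P m (a : ℝ) = ((b : ℝ) - 1) / (m + 1) * P m b := by
  induction b, hb using Nat.le_induction with
  | base => simp
  | succ b hb ih =>
    rw [sum_Ico_succ_top hb, ih]
    have h := P_shift m (b : ℝ)
    have hm : (0 : ℝ) < (m : ℝ) + 1 := by positivity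
    push_cast
    field_simp
    linarith

lemma sum_h (m n b : ℕ) (hm : 0 < m) (hb : 1 ≤ b) (hbn : b ≤ n) :
    ∑ a ∈ Ico 1 b, 1 / (((n : ℝ) - a) * P m ((n : ℝ) - a + 1)) =
      (1 / (m : ℝ)) * (1 / P m ((n : ℝ) - b + 1) - 1 / P m n) := by
  induction b, hb using Nat.le_induction with
  | base => simp
  | succ b hb ih =>
    rw [sum_Ico_succ_top hb, ih (by omega)]
    have hbn' : (b : ℝ) + 1 ≤ n := by exact_mod_cast hbn
    have hy : (0 : ℝ) < (n : ℝ) - b := by linarith
    have h := P_shift m ((n : ℝ) - b)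
    have h1 := P_pos m hy
    have h2 : 0 < P m ((n : ℝ) - b + 1) := P_pos m (by linarith)
    have hm' : (0 : ℝ) < (m : ℝ) := by exact_mod_cast hm
    have e1 : (n : ℝ) - ((b + 1 : ℕ) : ℝ) + 1 = (n : ℝ) - b := by push_cast; ring
    rw [e1]
    have key : 1 / (((n : ℝ) - b) * P m ((n : ℝ) - b + 1)) =
        (1 / (m : ℝ)) * (1 / P m ((n : ℝ) - b) - 1 / P m ((n : ℝ) - b + 1)) := by
      field_simp
      linarith
    rw [key]
    ring

/-- super-solution -/
noncomputable def f (n b : ℕ) : ℝ :=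
  (P 12 b / P 12 1) * (P 12 n / P 12 ((n : ℝ) - b + 1))

lemma f_ge_one {n b : ℕ} (hb : 1 ≤ b) (hbn : b ≤ n) : 1 ≤ f n b := by
  have h1 : (1 : ℝ) ≤ b := by exact_mod_cast hb
  have h2 : (b : ℝ) ≤ n := by exact_mod_cast hbn
  have h3 : 1 ≤ P 12 b / P 12 1 := by
    rw [one_le_div (P_pos 12 one_pos)]
    exact P_mono 12 one_pos h1
  have h4 : 1 ≤ P 12 n / P 12 ((n : ℝ) - b + 1) := by
    rw [one_le_div (P_pos 12 (by linarith))]
    exact P_mono 12 (by linarith) (by linarith)
  unfold f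
  nlinarith

lemma f_le {n b : ℕ} (hb : 1 ≤ b) (hbn : b ≤ n) : f n b ≤ (n : ℝ) ^ 24 := by
  have h1 : (1 : ℝ) ≤ b := by exact_mod_cast hb
  have h2 : (b : ℝ) ≤ n := by exact_mod_cast hbn
  have hP1 := P_pos 12 one_pos
  have hPn : P 12 n ≤ (n : ℝ) ^ 12 * P 12 1 := P_le_pow 12 (by linarith)
  have h3 : P 12 b / P 12 1 ≤ (n : ℝ) ^ 12 := by
    rw [div_le_iff₀ hP1]
    exact (P_mono 12 (by linarith) h2).trans hPn
  have h4 : P 12 n / P 12 ((n : ℝ) - b + 1) ≤ (n : ℝ) ^ 12 := by
    rw [div_le_iff₀ (P_pos 12 (by linarith))]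
    refine hPn.trans (mul_le_mul_of_nonneg_left ?_ (by positivity))
    exact P_mono 12 one_pos (by linarith)
  unfold f
  calc _ ≤ (n : ℝ) ^ 12 * (n : ℝ) ^ 12 := by
        apply mul_le_mul h3 h4
        · exact div_nonneg (P_pos 12 (by linarith)).le (P_pos 12 (by linarith)).le
        · positivity
    _ = _ := by ring

lemma super {n b : ℕ} (hb : 2 ≤ b) (hbn : b ≤ n) :
    ∑ a ∈ Ico 1 b, 3 * (1 / ((b : ℝ) - 1) + 1 / ((n : ℝ) - a)) * f n a ≤ (1 / 2) * f n b := by
  have h1 : (2 : ℝ) ≤ b := by exact_mod_cast hb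
  have h2 : (b : ℝ) ≤ n := by exact_mod_cast hbn
  have hP1 := P_pos 12 one_pos
  have hPn : 0 < P 12 (n : ℝ) := P_pos 12 (by linarith)
  have hPb : 0 < P 12 (b : ℝ) := P_pos 12 (by linarith)
  have hPnb : 0 < P 12 ((n : ℝ) - b + 1) := P_pos 12 (by linarith)
  have hterm : ∀ a ∈ Ico 1 b, 3 * (1 / ((b : ℝ) - 1) + 1 / ((n : ℝ) - a)) * f n a ≤
      3 * (P 12 n / (P 12 1 * P 12 ((n : ℝ) - b + 1)) / ((b : ℝ) - 1)) * P 12 a +
      3 * (P 12 b * P 12 n / P 12 1) * (1 / (((n : ℝ) - a) * P 12 ((n : ℝ) - a + 1))) := by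
    intro a ha
    rw [mem_Ico] at ha
    have a1 : (1 : ℝ) ≤ a := by exact_mod_cast ha.1
    have a2 : (a : ℝ) + 1 ≤ b := by exact_mod_cast ha.2
    have ha0 : 0 < P 12 (a : ℝ) := P_pos 12 (by linarith)
    have hna : 0 < P 12 ((n : ℝ) - a + 1) := P_pos 12 (by linarith)
    have e1 : P 12 (a : ℝ) ≤ P 12 (b : ℝ) := P_mono 12 (by linarith) (by linarith)
    have e2 : P 12 ((n : ℝ) - b + 1) ≤ P 12 ((n : ℝ) - a + 1) :=
      P_mono 12 (by linarith) (by linarith)
    have hna' : (0 : ℝ) < (n : ℝ) - a := by linarith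
    have hb' : (0 : ℝ) < (b : ℝ) - 1 := by linarith
    unfold f
    rw [mul_add, add_mul]
    apply add_le_add
    · calc 3 * (1 / ((b : ℝ) - 1)) * (P 12 a / P 12 1 * (P 12 n / P 12 ((n : ℝ) - a + 1)))
          = (3 * P 12 a * P 12 n / (P 12 1 * ((b : ℝ) - 1))) * (1 / P 12 ((n : ℝ) - a + 1)) := by
            field_simp
        _ ≤ (3 * P 12 a * P 12 n / (P 12 1 * ((b : ℝ) - 1))) * (1 / P 12 ((n : ℝ) - b + 1)) := by
            apply mul_le_mul_of_nonneg_left _ (by positivity)
            exact one_div_le_one_div_of_le hPnb e2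
        _ = _ := by field_simp
    · calc 3 * (1 / ((n : ℝ) - a)) * (P 12 a / P 12 1 * (P 12 n / P 12 ((n : ℝ) - a + 1)))
          = (3 * P 12 n / (P 12 1 * (((n : ℝ) - a) * P 12 ((n : ℝ) - a + 1)))) * P 12 a := by
            field_simp
        _ ≤ (3 * P 12 n / (P 12 1 * (((n : ℝ) - a) * P 12 ((n : ℝ) - a + 1)))) * P 12 b := by
            apply mul_le_mul_of_nonneg_left e1 (by positivity)
        _ = _ := by field_simp
  refine (sum_le_sum hterm).trans ?_
  rw [sum_add_distrib, ← mul_sum, ← mul_sum, sum_g 12 b (by omega),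
    sum_h 12 n b (by norm_num) (by omega) hbn]
  have hb' : (0 : ℝ) < (b : ℝ) - 1 := by linarith
  have hf : f n b = P 12 b * P 12 n / (P 12 1 * P 12 ((n : ℝ) - b + 1)) := by
    unfold f; field_simp
  have hf0 : 0 < f n b := by rw [hf]; positivity
  have t1 : 3 * (P 12 n / (P 12 1 * P 12 ((n : ℝ) - b + 1)) / ((b : ℝ) - 1)) *
      (((b : ℝ) - 1) / (((12 : ℕ) : ℝ) + 1) * P 12 b) = (3 / 13) * f n b := by
    rw [hf]; push_cast; field_simp; norm_num
  have t2 : 3 * (P 12 b * P 12 n / P 12 1) *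
      (1 / ((12 : ℕ) : ℝ) * (1 / P 12 ((n : ℝ) - b + 1) - 1 / P 12 n)) ≤ (1 / 4) * f n b := by
    calc _ ≤ 3 * (P 12 b * P 12 n / P 12 1) * (1 / ((12 : ℕ) : ℝ) * (1 / P 12 ((n : ℝ) - b + 1))) := by
          apply mul_le_mul_of_nonneg_left _ (by positivity)
          apply mul_le_mul_of_nonneg_left _ (by positivity)
          have : 0 < 1 / P 12 (n : ℝ) := by positivity
          linarith
      _ = (1 / 4) * f n b := by
          rw [hf]; push_cast; field_simp; norm_num
  rw [t1]
  linarith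

variable {n : ℕ}

lemma card_order_pos : 0 < (Fintype.card (Order n) : ℝ) := by
  have : Nonempty (Order n) := ⟨(complete n).equivFin.symm⟩
  exact_mod_cast Fintype.card_pos

lemma cnt_le_card (I : ℕ → Prop) (k b : ℕ) : (cnt n I k b : ℝ) ≤ Fintype.card (Order n) := by
  classical
  exact_mod_cast card_le_univ _

lemma cnt_upper (k : ℕ) : ∀ b, 1 ≤ b → b ≤ n →
    (cnt n (fun _ => True) k b : ℝ) ≤ Fintype.card (Order n) * ((1 / 2) ^ k * f n b) := by
  have hF := card_order_pos (n := n)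
  induction k with
  | zero =>
    intro b hb hbn
    refine (cnt_le_card _ _ _).trans ?_
    have := f_ge_one hb hbn
    nlinarith
  | succ k ih =>
    intro b hb hbn
    rcases eq_or_lt_of_le hb with h1 | h1
    · have h := cnt_succ (fun _ => True) k b hbn
      rw [← h1] at h
      simp only [Ico_self, sum_empty] at h
      rw [← h1]
      refine h.trans ?_
      have := f_ge_one (n := n) (b := 1) le_rfl (by omega)
      positivity
    · refine (cnt_succ (fun _ => True) k b hbn).trans ?_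
      have hb2 : (2 : ℝ) ≤ b := by exact_mod_cast h1
      have hbn' : (b : ℝ) ≤ n := by exact_mod_cast hbn
      calc ∑ a ∈ Ico 1 b, 3 * (1 / ((b : ℝ) - 1) + 1 / ((n : ℝ) - a)) *
            (cnt n (fun _ => True) k a : ℝ)
          ≤ ∑ a ∈ Ico 1 b, (Fintype.card (Order n) * (1 / 2) ^ k) *
            (3 * (1 / ((b : ℝ) - 1) + 1 / ((n : ℝ) - a)) * f n a) := by
            apply sum_le_sum
            intro a ha
            rw [mem_Ico] at ha
            have a2 : (a : ℝ) + 1 ≤ b := by exact_mod_cast ha.2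
            have h2 := ih a ha.1 (by omega)
            have hna' : (0 : ℝ) < (n : ℝ) - a := by linarith
            have hb' : (0 : ℝ) < (b : ℝ) - 1 := by linarith
            calc _ ≤ 3 * (1 / ((b : ℝ) - 1) + 1 / ((n : ℝ) - a)) *
                  (Fintype.card (Order n) * ((1 / 2) ^ k * f n a)) :=
                  mul_le_mul_of_nonneg_left h2 (by positivity)
              _ = _ := by ring
        _ = (Fintype.card (Order n) * (1 / 2) ^ k) *
            ∑ a ∈ Ico 1 b, (3 * (1 / ((b : ℝ) - 1) + 1 / ((n : ℝ) - a)) * f n a) := by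
            rw [mul_sum]
        _ ≤ (Fintype.card (Order n) * (1 / 2) ^ k) * ((1 / 2) * f n b) :=
            mul_le_mul_of_nonneg_left (super (by omega) hbn) (by positivity)
        _ = _ := by rw [pow_succ]; ring

open Classical in
lemma tail_upper (hn : 1 ≤ n) (K : ℕ) (hK : 1 ≤ K) :
    ((univ.filter (fun σ : Order n => K ≤ maxPath (output n σ))).card : ℝ) ≤
      Fintype.card (Order n) * ((n : ℝ) ^ 25 * (1 / 2) ^ K) := by
  have hF := card_order_pos (n := n)
  have hsub : univ.filter (fun σ : Order n => K ≤ maxPath (output n σ)) ⊆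
      (Icc 1 n).biUnion (fun b => univ.filter (fun σ : Order n => Reach (fun _ => True) σ K b)) := by
    intro σ hσ
    rw [mem_filter] at hσ
    obtain ⟨b, h1, h2, h3⟩ := reach_of_le hn σ hK hσ.2
    rw [mem_biUnion]
    exact ⟨b, mem_Icc.2 ⟨h1, h2⟩, by rw [mem_filter]; exact ⟨mem_univ _, h3⟩⟩
  have h1 : ((univ.filter (fun σ : Order n => K ≤ maxPath (output n σ))).card : ℝ) ≤
      ∑ b ∈ Icc 1 n, (cnt n (fun _ => True) K b : ℝ) := by
    exact_mod_cast (card_le_card hsub).trans card_biUnion_le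
  refine h1.trans ?_
  calc _ ≤ ∑ b ∈ Icc 1 n, Fintype.card (Order n) * ((1 / 2) ^ K * (n : ℝ) ^ 24) := by
        apply sum_le_sum
        intro b hb
        rw [mem_Icc] at hb
        refine (cnt_upper K b hb.1 hb.2).trans ?_
        apply mul_le_mul_of_nonneg_left _ hF.le
        apply mul_le_mul_of_nonneg_left (f_le hb.1 hb.2) (by positivity)
    _ = _ := by
        rw [sum_const, Nat.card_Icc, nsmul_eq_mul]
        simp only [add_tsub_cancel_right]
        ring

theorem expLen_upper (hn : 1 ≤ n) (K : ℕ) (hK : 1 ≤ K) :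
    expLen n ≤ K + (n : ℝ) ^ 26 * (1 / 2) ^ K := by
  classical
  have hF := card_order_pos (n := n)
  unfold expLen
  rw [div_le_iff₀ hF]
  have hpt : ∀ σ : Order n, (maxPath (output n σ) : ℝ) ≤
      K + (n : ℝ) * (if K ≤ maxPath (output n σ) then 1 else 0) := by
    intro σ
    split_ifs with h
    · have : (maxPath (output n σ) : ℝ) ≤ n := by exact_mod_cast maxPath_le σ
      have : (0 : ℝ) ≤ K := Nat.cast_nonneg _
      linarith
    · have : (maxPath (output n σ) : ℝ) ≤ K := by exact_mod_cast (not_le.1 h).le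
      linarith
  refine (sum_le_sum (fun σ _ => hpt σ)).trans ?_
  rw [sum_add_distrib, ← mul_sum, sum_boole, sum_const, nsmul_eq_mul, card_univ]
  have := tail_upper hn K hK
  have h0 : (0 : ℝ) ≤ n := Nat.cast_nonneg _
  calc _ ≤ (Fintype.card (Order n) : ℝ) * K + n * (Fintype.card (Order n) *
        ((n : ℝ) ^ 25 * (1 / 2) ^ K)) := by
        gcongr
    _ = _ := by ring

lemma sum_sqrt (b : ℕ) : ∑ a ∈ Ico 1 (b + 1), 1 / √(a : ℝ) ≤ 2 * √(b : ℝ) := by
  induction b with
  | zero => simp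
  | succ b ih =>
    rw [sum_Ico_succ_top (by omega)]
    have h1 : √(b : ℝ) ≤ √((b + 1 : ℕ) : ℝ) := Real.sqrt_le_sqrt (by push_cast; linarith)
    have h2 : 0 < √((b + 1 : ℕ) : ℝ) := Real.sqrt_pos.2 (by positivity)
    have h3 : √((b + 1 : ℕ) : ℝ) ^ 2 = ((b + 1 : ℕ) : ℝ) := Real.sq_sqrt (by positivity)
    have h4 : √(b : ℝ) ^ 2 = b := Real.sq_sqrt (by positivity)
    have h5 : 0 ≤ √(b : ℝ) := Real.sqrt_nonneg _
    have h6 : 1 / √((b + 1 : ℕ) : ℝ) ≤ 2 * √((b + 1 : ℕ) : ℝ) - 2 * √(b : ℝ) := by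
      rw [div_le_iff₀ h2]
      have h7 : √((b + 1 : ℕ) : ℝ) ^ 2 - √(b : ℝ) ^ 2 = 1 := by rw [h3, h4]; push_cast; ring
      nlinarith
    linarith

lemma cnt_lower (k : ℕ) : ∀ b, 1 ≤ b → 2 * b ≤ n →
    (cnt n (fun b => b = 1) k b : ℝ) ≤ Fintype.card (Order n) * (24 ^ k / √(b : ℝ)) := by
  classical
  have hF := card_order_pos (n := n)
  induction k with
  | zero =>
    intro b hb hbn
    rcases eq_or_lt_of_le hb with h1 | h1
    · rw [← h1]
      refine (cnt_le_card _ _ _).trans ?_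
      simp
    · have : cnt n (fun b => b = 1) 0 b = 0 := by
        unfold cnt
        rw [card_eq_zero, filter_eq_empty_iff]
        intro σ _ h
        have h2 : b = 1 := h
        omega
      rw [this]
      push_cast
      positivity
  | succ k ih =>
    intro b hb hbn
    refine (cnt_succ (fun b => b = 1) k b (by omega)).trans ?_
    rcases eq_or_lt_of_le hb with h1 | h1
    · rw [← h1]
      simp only [Ico_self, sum_empty]
      positivity
    · have hb2 : (2 : ℝ) ≤ b := by exact_mod_cast h1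
      have hbn' : 2 * (b : ℝ) ≤ n := by exact_mod_cast hbn
      obtain ⟨c, rfl⟩ : ∃ c, b = c + 1 := ⟨b - 1, by omega⟩
      have hc : 1 ≤ c := by omega
      have hc1 : (1 : ℝ) ≤ c := by exact_mod_cast hc
      have hcs : 0 < √(c : ℝ) := Real.sqrt_pos.2 (by linarith)
      have hcs1 : 0 < √((c + 1 : ℕ) : ℝ) := Real.sqrt_pos.2 (by positivity)
      calc ∑ a ∈ Ico 1 (c + 1), 3 * (1 / (((c + 1 : ℕ) : ℝ) - 1) + 1 / ((n : ℝ) - a)) *
            (cnt n (fun b => b = 1) k a : ℝ)
          ≤ ∑ a ∈ Ico 1 (c + 1), (6 / (c : ℝ) * (Fintype.card (Order n) * 24 ^ k)) *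
            (1 / √(a : ℝ)) := by
            apply sum_le_sum
            intro a ha
            rw [mem_Ico] at ha
            have a2 : (a : ℝ) + 1 ≤ ((c + 1 : ℕ) : ℝ) := by exact_mod_cast ha.2
            have h2 := ih a ha.1 (by omega)
            push_cast at a2 hbn' ⊢
            have hna' : (c : ℝ) ≤ (n : ℝ) - a := by linarith
            have h3 : 1 / ((n : ℝ) - a) ≤ 1 / (c : ℝ) :=
              one_div_le_one_div_of_le (by linarith) hna'
            have h4 : (0 : ℝ) ≤ cnt n (fun b => b = 1) k a := Nat.cast_nonneg _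
            calc _ ≤ 6 / (c : ℝ) * (cnt n (fun b => b = 1) k a : ℝ) := by
                  apply mul_le_mul_of_nonneg_right _ h4
                  rw [add_sub_cancel_right]
                  have : (6 : ℝ) / c = 3 * (1 / c + 1 / c) := by ring
                  rw [this]
                  linarith
              _ ≤ 6 / (c : ℝ) * (Fintype.card (Order n) * (24 ^ k / √(a : ℝ))) :=
                  mul_le_mul_of_nonneg_left h2 (by positivity)
              _ = _ := by ring
        _ = (6 / (c : ℝ) * (Fintype.card (Order n) * 24 ^ k)) *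
            ∑ a ∈ Ico 1 (c + 1), (1 / √(a : ℝ)) := by rw [mul_sum]
        _ ≤ (6 / (c : ℝ) * (Fintype.card (Order n) * 24 ^ k)) * (2 * √(c : ℝ)) :=
            mul_le_mul_of_nonneg_left (sum_sqrt c) (by positivity)
        _ = (Fintype.card (Order n) * 24 ^ k) * (12 / √(c : ℝ)) := by
            have h5 : (c : ℝ) = √(c : ℝ) * √(c : ℝ) := (Real.mul_self_sqrt (by positivity)).symm
            nth_rewrite 1 [h5]
            field_simp
            ring
        _ ≤ (Fintype.card (Order n) * 24 ^ k) * (24 / √((c + 1 : ℕ) : ℝ)) := by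
            apply mul_le_mul_of_nonneg_left _ (by positivity)
            rw [div_le_div_iff₀ hcs hcs1]
            have h6 : √((c + 1 : ℕ) : ℝ) ≤ 2 * √(c : ℝ) := by
              rw [Real.sqrt_le_left (by positivity)]
              have h5 : √(c : ℝ) ^ 2 = c := Real.sq_sqrt (by positivity)
              rw [mul_pow, h5]
              push_cast
              linarith
            linarith
        _ = _ := by rw [pow_succ]; ring

lemma geo (K : ℕ) : ∑ k ∈ range (K + 1), (24 : ℝ) ^ k ≤ 24 ^ (K + 1) := by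
  induction K with
  | zero => norm_num
  | succ K ih =>
    rw [sum_range_succ]
    calc _ ≤ (24 : ℝ) ^ (K + 1) + 24 ^ (K + 1) := by linarith
      _ ≤ _ := by
        rw [pow_succ (24 : ℝ) (K + 1)]
        have : (0 : ℝ) < 24 ^ (K + 1) := by positivity
        linarith

open Classical in
lemma tail_lower (hn : 2 ≤ n) (K : ℕ) :
    ((univ.filter (fun σ : Order n => maxPath (output n σ) ≤ K)).card : ℝ) ≤
      Fintype.card (Order n) * (24 ^ (K + 1) / √((n / 2 : ℕ) : ℝ)) := by
  have hF := card_order_pos (n := n)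
  have hsub : univ.filter (fun σ : Order n => maxPath (output n σ) ≤ K) ⊆
      (range (K + 1)).biUnion
        (fun k => univ.filter (fun σ : Order n => Reach (fun b => b = 1) σ k (n / 2))) := by
    intro σ hσ
    rw [mem_filter] at hσ
    obtain ⟨k, h1, h2⟩ := reach_root (by omega) σ (n / 2) (by omega) (by omega)
    rw [mem_biUnion]
    exact ⟨k, mem_range.2 (by omega), by rw [mem_filter]; exact ⟨mem_univ _, h2⟩⟩
  have h1 : ((univ.filter (fun σ : Order n => maxPath (output n σ) ≤ K)).card : ℝ) ≤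
      ∑ k ∈ range (K + 1), (cnt n (fun b => b = 1) k (n / 2) : ℝ) := by
    exact_mod_cast (card_le_card hsub).trans card_biUnion_le
  refine h1.trans ?_
  calc _ ≤ ∑ k ∈ range (K + 1), (Fintype.card (Order n) / √((n / 2 : ℕ) : ℝ)) * 24 ^ k := by
        apply sum_le_sum
        intro k _
        refine (cnt_lower k (n / 2) (by omega) (by omega)).trans (le_of_eq ?_)
        ring
    _ = (Fintype.card (Order n) / √((n / 2 : ℕ) : ℝ)) * ∑ k ∈ range (K + 1), (24 : ℝ) ^ k := by
        rw [mul_sum]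
    _ ≤ (Fintype.card (Order n) / √((n / 2 : ℕ) : ℝ)) * 24 ^ (K + 1) :=
        mul_le_mul_of_nonneg_left (geo K) (by positivity)
    _ = _ := by ring

theorem expLen_lower (hn : 2 ≤ n) (M : ℕ) (hM : 2 * (24 : ℝ) ^ M ≤ √((n / 2 : ℕ) : ℝ)) :
    (M : ℝ) / 2 ≤ expLen n := by
  classical
  have hF := card_order_pos (n := n)
  rcases Nat.eq_zero_or_pos M with h0 | h0
  · rw [h0]
    unfold expLen
    push_cast
    rw [zero_div]
    positivity
  · obtain ⟨K, rfl⟩ : ∃ K, M = K + 1 := ⟨M - 1, by omega⟩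
    unfold expLen
    rw [le_div_iff₀ hF]
    have hpt : ∀ σ : Order n, ((K + 1 : ℕ) : ℝ) -
        ((K + 1 : ℕ) : ℝ) * (if maxPath (output n σ) ≤ K then 1 else 0) ≤
          (maxPath (output n σ) : ℝ) := by
      intro σ
      split_ifs with h
      · have : (0 : ℝ) ≤ maxPath (output n σ) := Nat.cast_nonneg _
        linarith
      · have : ((K + 1 : ℕ) : ℝ) ≤ maxPath (output n σ) := by exact_mod_cast (not_le.1 h)
        linarith
    refine le_trans ?_ (sum_le_sum (fun σ _ => hpt σ))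
    rw [sum_sub_distrib, ← mul_sum, sum_boole, sum_const, nsmul_eq_mul, card_univ]
    have h1 := tail_lower hn K
    have hs : 0 < √((n / 2 : ℕ) : ℝ) := lt_of_lt_of_le (by positivity) hM
    have h2 : (24 : ℝ) ^ (K + 1) / √((n / 2 : ℕ) : ℝ) ≤ 1 / 2 := by
      rw [div_le_iff₀ hs]
      linarith
    have h3 : ((univ.filter (fun σ : Order n => maxPath (output n σ) ≤ K)).card : ℝ) ≤
        Fintype.card (Order n) * (1 / 2) :=
      h1.trans (mul_le_mul_of_nonneg_left h2 hF.le)
    have h4 : (0 : ℝ) < ((K + 1 : ℕ) : ℝ) := by positivity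
    nlinarith

end Q298.EdgeRemoval
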